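import Mathlib

set_option autoImplicit false

/-!
# Words of partial quotients and continuants (helper475)

A word `w = [a₁, …, a_k]` has letters in `Fin M`; the letter `a` stands for the partial quotient `a + 1`, so the partial
quotients are `1, …, M`. `K w` is the continuant, the denominator of the continued fraction `[0; a₁ + 1, …, a_k + 1]`.
-/

namespace Pool.Agent.N475.ZQ

open Finset Classical

variable {M : ℕ}

/-- the product of the matrices `(a 1; 1 0)` applied to a vector -/
def ap : List (Fin M) → ℕ × ℕ → ℕ × ℕ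
  | [], p => p
  | a :: l, p => ((a.1 + 1) * (ap l p).1 + (ap l p).2, (ap l p).1)

/-- continuant of the word, and continuant of the word without its first letter -/
def kp (w : List (Fin M)) : ℕ × ℕ := ap w (1, 0)

/-- the continuant: the denominator of the continued fraction with the partial quotients `w` -/
def K (w : List (Fin M)) : ℕ := (kp w).1

/-- continuant of the word without its last letter -/
def be (w : List (Fin M)) : ℕ := (ap w (0, 1)).1

@[simp] lemma ap_nil (p : ℕ × ℕ) : ap ([] : List (Fin M)) p = p := rfl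

lemma ap_cons (a : Fin M) (l : List (Fin M)) (p : ℕ × ℕ) :
    ap (a :: l) p = ((a.1 + 1) * (ap l p).1 + (ap l p).2, (ap l p).1) := rfl

lemma ap_append (u v : List (Fin M)) (p : ℕ × ℕ) : ap (u ++ v) p = ap u (ap v p) := by
  induction u with
  | nil => rfl
  | cons a l ih => rw [List.cons_append, ap_cons, ih, ap_cons]

lemma ap_lin (u : List (Fin M)) (x y : ℕ) :
    (ap u (x, y)).1 = (ap u (1, 0)).1 * x + (ap u (0, 1)).1 * y ∧
    (ap u (x, y)).2 = (ap u (1, 0)).2 * x + (ap u (0, 1)).2 * y := by
  induction u with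
  | nil => simp
  | cons a l ih =>
    simp only [ap_cons]
    rw [ih.1, ih.2]
    constructor <;> ring

lemma K_append (u v : List (Fin M)) : K (u ++ v) = K u * (kp v).1 + be u * (kp v).2 := by
  show (ap (u ++ v) (1, 0)).1 = _
  rw [ap_append]
  show (ap u (kp v)).1 = _
  obtain ⟨x, y⟩ := kp v
  exact (ap_lin u x y).1

lemma det (u : List (Fin M)) :
    ((ap u (1, 0)).1 : ℤ) * (ap u (0, 1)).2 - (ap u (0, 1)).1 * (ap u (1, 0)).2 = (-1) ^ u.length := by
  induction u with
  | nil => simp
  | cons a l ih =>
    simp only [ap_cons, List.length_cons, pow_succ]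
    rw [← ih]
    push_cast
    ring

lemma coprime_K_be (u : List (Fin M)) : Nat.Coprime (K u) (be u) := by
  have h := det u
  rw [← Nat.isCoprime_iff_coprime]
  rcases Nat.even_or_odd u.length with he | ho
  · rw [he.neg_one_pow] at h
    exact ⟨((ap u (0, 1)).2 : ℤ), -((ap u (1, 0)).2 : ℤ), by
      show ((ap u (0, 1)).2 : ℤ) * ((ap u (1, 0)).1 : ℤ) + -((ap u (1, 0)).2 : ℤ) * ((ap u (0, 1)).1 : ℤ) = 1
      linarith⟩
  · rw [ho.neg_one_pow] at h
    exact ⟨-((ap u (0, 1)).2 : ℤ), ((ap u (1, 0)).2 : ℤ), by
      show -((ap u (0, 1)).2 : ℤ) * ((ap u (1, 0)).1 : ℤ) + ((ap u (1, 0)).2 : ℤ) * ((ap u (0, 1)).1 : ℤ) = 1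
      linarith⟩

@[simp] lemma kp_nil : kp ([] : List (Fin M)) = (1, 0) := rfl

@[simp] lemma K_nil : K ([] : List (Fin M)) = 1 := rfl

@[simp] lemma be_nil : be ([] : List (Fin M)) = 0 := rfl

lemma kp_cons (a : Fin M) (l : List (Fin M)) : kp (a :: l) = ((a.1 + 1) * (kp l).1 + (kp l).2, (kp l).1) := rfl

lemma kp_pos (w : List (Fin M)) : 1 ≤ (kp w).1 := by
  induction w with
  | nil => simp
  | cons a l ih =>
    rw [kp_cons]
    show 1 ≤ (a.1 + 1) * (kp l).1 + (kp l).2
    nlinarith

lemma K_pos (w : List (Fin M)) : 1 ≤ K w := kp_pos w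

lemma kp_le (w : List (Fin M)) : (kp w).2 ≤ (kp w).1 := by
  cases w with
  | nil => simp
  | cons a l =>
    rw [kp_cons]
    show (kp l).1 ≤ (a.1 + 1) * (kp l).1 + (kp l).2
    nlinarith

lemma kp_snd_eq_zero {w : List (Fin M)} (h : (kp w).2 = 0) : w = [] := by
  cases w with
  | nil => rfl
  | cons a l =>
    rw [kp_cons] at h
    have := kp_pos l
    simp only at h
    omega

/-- adding a letter on the right -/
lemma K_concat (u : List (Fin M)) (a : Fin M) : K (u ++ [a]) = (a.1 + 1) * K u + be u := by
  rw [K_append]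
  show K u * ((a.1 + 1) * 1 + 0) + be u * 1 = _
  ring

lemma be_concat (u : List (Fin M)) (a : Fin M) : be (u ++ [a]) = K u := by
  show (ap (u ++ [a]) (0, 1)).1 = _
  rw [ap_append]
  show (ap u ((a.1 + 1) * 0 + 1, 0)).1 = _
  rw [(ap_lin u _ _).1]
  show K u * ((a.1 + 1) * 0 + 1) + be u * 0 = K u
  ring

lemma be_le (u : List (Fin M)) : be u ≤ K u := by
  induction u using List.reverseRecOn with
  | nil => simp
  | append_singleton l a ih =>
    rw [K_concat, be_concat]
    nlinarith [K_pos l]

lemma K_append_le (u v : List (Fin M)) : K (u ++ v) ≤ 2 * K u * K v := by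
  rw [K_append]
  have h1 := be_le u
  have h2 := kp_le v
  have : be u * (kp v).2 ≤ K u * K v := Nat.mul_le_mul h1 h2
  have h3 : K u * (kp v).1 = K u * K v := rfl
  nlinarith

lemma K_le_append (u v : List (Fin M)) : K u ≤ K (u ++ v) := by
  rw [K_append]
  have := kp_pos v
  nlinarith [K_pos u]

lemma K_le_append' (u v : List (Fin M)) : K v ≤ K (u ++ v) := by
  rw [K_append]
  have := K_pos u
  have h : K v = (kp v).1 := rfl
  rw [h]
  nlinarith [kp_pos v]

/-- two letters double the continuant -/
lemma K_two (u : List (Fin M)) (a b : Fin M) : 2 * K u ≤ K (u ++ [a] ++ [b]) := by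
  rw [K_concat, be_concat, K_concat]
  nlinarith [K_pos u, Nat.zero_le (be u), Nat.zero_le (a.1 * K u), Nat.zero_le (b.1 * ((a.1 + 1) * K u + be u))]

/-- a word is determined by its two continuants and the parity of its length -/
lemma kp_inj : ∀ (w w' : List (Fin M)), kp w = kp w' → w.length % 2 = w'.length % 2 → w = w' := by
  intro w
  induction w with
  | nil =>
    intro w' h _
    have h2 : (kp w').2 = 0 := by rw [← h]; rfl
    exact (kp_snd_eq_zero h2).symm
  | cons a l ih =>
    intro w' h hp
    cases w' with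
    | nil =>
      have h2 : (kp (a :: l)).2 = 0 := by rw [h]; rfl
      exact absurd (kp_snd_eq_zero h2) (List.cons_ne_nil _ _)
    | cons a' l' =>
      rw [kp_cons, kp_cons, Prod.mk.injEq] at h
      obtain ⟨h1, h2⟩ := h
      rw [← h2] at h1
      have hy := kp_le l
      have hy' := kp_le l'
      rw [← h2] at hy'
      have hx := kp_pos l
      -- the case of equal letters
      have key : a.1 = a'.1 → a :: l = a' :: l' := by
        intro haa
        have e1 : a = a' := Fin.ext haa
        subst e1
        have e2 : (kp l).2 = (kp l').2 := by omega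
        have e3 : kp l = kp l' := Prod.ext h2 e2
        simp only [List.length_cons] at hp
        rw [ih l' e3 (by omega)]
      -- the ambiguous case
      have amb : ∀ (c c' : Fin M) (m m' : List (Fin M)), c.1 < c'.1 → (kp m).1 = (kp m').1 →
          (c.1 + 1) * (kp m).1 + (kp m).2 = (c'.1 + 1) * (kp m').1 + (kp m').2 → m.length = 1 ∧ m'.length = 0 := by
        intro c c' m m' hcc hm1 hm2
        rw [← hm1] at hm2
        have k1 := kp_le m
        have k2 := kp_pos m
        obtain ⟨t, ht⟩ : ∃ t, c'.1 = c.1 + 1 + t := ⟨c'.1 - c.1 - 1, by omega⟩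
        rw [ht] at hm2
        have e1 : (kp m).2 = (1 + t) * (kp m).1 + (kp m').2 := by nlinarith
        have e2 : t * (kp m).1 + (kp m').2 = 0 := by nlinarith
        have e3 : (kp m').2 = 0 := by omega
        have e4 := kp_snd_eq_zero e3
        rw [e4] at hm1
        have e5 : (kp m).1 = 1 := by rw [hm1]; rfl
        have e6 : (kp m).2 = 1 := by
          have : t * (kp m).1 = 0 := by omega
          rw [e1, e3]
          nlinarith
        refine ⟨?_, by rw [e4]; rfl⟩
        cases m with
        | nil => simp at e6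
        | cons b n =>
          rw [kp_cons] at e5 e6
          simp only at e5 e6
          rw [e6] at e5
          have : (kp n).2 = 0 := by nlinarith [Nat.zero_le b.1]
          rw [kp_snd_eq_zero this]
          rfl
      rcases lt_trichotomy a.1 a'.1 with hlt | heq | hgt
      · obtain ⟨q1, q2⟩ := amb a a' l l' hlt h2 (by rw [← h2]; exact h1)
        simp only [List.length_cons] at hp
        omega
      · exact key heq
      · obtain ⟨q1, q2⟩ := amb a' a l' l hgt h2.symm (by rw [← h2]; exact h1.symm)
        simp only [List.length_cons] at hp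
        omega

/-- the length is at most logarithmic in the continuant -/
lemma two_pow_le (w : List (Fin M)) : 2 ^ (w.length / 2) ≤ K w := by
  induction w using List.twoStepInduction with
  | nil => simp
  | singleton a => simp [K_pos]
  | cons_cons a b l ih _ =>
    have h1 : (a :: b :: l).length / 2 = l.length / 2 + 1 := by
      simp only [List.length_cons]
      omega
    rw [h1, pow_succ]
    have h2 : 2 * K l ≤ K (a :: b :: l) := by
      show 2 * (kp l).1 ≤ (a.1 + 1) * ((b.1 + 1) * (kp l).1 + (kp l).2) + (kp l).1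
      nlinarith [Nat.zero_le (a.1 * ((b.1 + 1) * (kp l).1 + (kp l).2)), Nat.zero_le (b.1 * (kp l).1)]
    linarith

/-- the set of words with `K w ^ 2 ≤ R` -/
def T (M R : ℕ) : Set (List (Fin M)) := {w | K w ^ 2 ≤ R}

lemma len_le {w : List (Fin M)} {N : ℕ} (h : K w ≤ N) : w.length ≤ 2 * Nat.log 2 N + 1 := by
  have h1 := (two_pow_le w).trans h
  have hN : N ≠ 0 := by
    have := K_pos w
    omega
  have h2 : w.length / 2 ≤ Nat.log 2 N := (Nat.le_log_iff_pow_le (by norm_num) hN).2 h1
  omega

lemma finite_K (M N : ℕ) : {w : List (Fin M) | K w ≤ N}.Finite :=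
  (List.finite_length_le (Fin M) (2 * Nat.log 2 N + 1)).subset fun _ hw => len_le hw

lemma finite_T (M R : ℕ) : (T M R).Finite :=
  (finite_K M R).subset fun w hw => by
    have h1 : K w ^ 2 ≤ R := hw
    have := K_pos w
    show K w ≤ R
    nlinarith

end Pool.Agent.N475.ZQ
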