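import Pool.Agent.N475.ZQ.A

set_option autoImplicit false

/-!
# Every value of the continuant is taken rarely (helper475)

The number of words with continuant `v` is at most `2 (M + 2)` times the number of words `u` with `K(u)^2 ≤ (M+1)^2 v`: the
word is cut at the first prefix `u` with `K(u)^2 ≥ v`, and `K(u r) = K(u) x + K(u⁻) y` has few solutions `(x, y)`.
-/

namespace Pool.Agent.N475.ZQ

open Finset Classical

variable {M : ℕ}

lemma sol_card (α β v : ℕ) (hα : 1 ≤ α) (hβ : 1 ≤ β) (hc : Nat.Coprime α β) (S : Finset (ℕ × ℕ))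
    (hS : ∀ p ∈ S, α * p.1 + β * p.2 = v) : S.card ≤ v / (α * β) + 1 := by
  have h1 : Set.InjOn (fun p : ℕ × ℕ => p.1 / β) (S : Set (ℕ × ℕ)) := by
    intro p hp q hq h
    have e1 := hS p hp
    have e2 := hS q hq
    have e3 : p.1 ≡ q.1 [MOD β] := by
      have h5 : α * p.1 ≡ α * q.1 [MOD β] := by
        have h6 : (α * p.1 + β * p.2) ≡ (α * q.1 + β * q.2) [MOD β] := by rw [e1, e2]
        unfold Nat.ModEq at h6 ⊢
        rwa [Nat.add_mul_mod_self_left, Nat.add_mul_mod_self_left] at h6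
      exact Nat.ModEq.cancel_left_of_coprime (by rw [Nat.gcd_comm]; exact hc) h5
    have e4 : p.1 = q.1 := by
      have h5 := Nat.div_add_mod p.1 β
      have h6 := Nat.div_add_mod q.1 β
      simp only at h
      rw [← h5, ← h6, h, e3]
    have e5 : p.2 = q.2 := by
      rw [e4] at e1
      have : β * p.2 = β * q.2 := by omega
      exact Nat.eq_of_mul_eq_mul_left (by omega) this
    exact Prod.ext e4 e5
  have h2 : ∀ p ∈ S, p.1 / β ∈ Finset.range (v / (α * β) + 1) := by
    intro p hp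
    rw [Finset.mem_range]
    have e1 := hS p hp
    have e2 : p.1 ≤ v / α := by
      rw [Nat.le_div_iff_mul_le (by omega)]
      nlinarith [Nat.zero_le (β * p.2)]
    have e3 : p.1 / β ≤ v / α / β := Nat.div_le_div_right e2
    rw [Nat.div_div_eq_div_mul] at e3
    omega
  have h3 := Finset.card_le_card_of_injOn (fun p : ℕ × ℕ => p.1 / β) h2 h1
  rwa [Finset.card_range] at h3

lemma split_aux (v : ℕ) (w : List (Fin M)) (h : v ≤ K w ^ 2) :
    ∃ u r : List (Fin M), w = u ++ r ∧ v ≤ K u ^ 2 ∧ (u = [] ∨ ∃ u' a, u = u' ++ [a] ∧ K u' ^ 2 < v) := by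
  induction w using List.reverseRecOn with
  | nil => exact ⟨[], [], rfl, h, Or.inl rfl⟩
  | append_singleton l a ih =>
    by_cases hl : v ≤ K l ^ 2
    · obtain ⟨u, r, e1, e2, e3⟩ := ih hl
      exact ⟨u, r ++ [a], by rw [e1, List.append_assoc], e2, e3⟩
    · exact ⟨l ++ [a], [], by simp, h, Or.inr ⟨l, a, rfl, by omega⟩⟩

lemma split (v : ℕ) (hv : 2 ≤ v) (w : List (Fin M)) (h : K w = v) :
    ∃ u r : List (Fin M), w = u ++ r ∧ K u ^ 2 ≤ (M + 1) ^ 2 * v ∧ v ≤ (M + 1) * (K u * be u) ∧ 1 ≤ be u := by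
  obtain ⟨u, r, e1, e2, e3⟩ := split_aux v w (by rw [h]; nlinarith)
  rcases e3 with e3 | ⟨u', a, e3, e4⟩
  · rw [e3] at e2
    simp at e2
    omega
  · have h1 : K u = (a.1 + 1) * K u' + be u' := by rw [e3, K_concat]
    have h2 : be u = K u' := by rw [e3, be_concat]
    have h3 := be_le u'
    have h4 := K_pos u'
    have h5 : a.1 + 1 ≤ M := a.2
    have h6 : K u ≤ (M + 1) * K u' := by
      rw [h1]
      nlinarith
    refine ⟨u, r, e1, ?_, ?_, by omega⟩
    · calc K u ^ 2 ≤ ((M + 1) * K u') ^ 2 := Nat.pow_le_pow_left h6 2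
        _ = (M + 1) ^ 2 * K u' ^ 2 := by ring
        _ ≤ (M + 1) ^ 2 * v := Nat.mul_le_mul_left _ e4.le
    · rw [h2]
      calc v ≤ K u ^ 2 := e2
        _ = K u * K u := by ring
        _ ≤ K u * ((M + 1) * K u') := Nat.mul_le_mul_left _ h6
        _ = (M + 1) * (K u * K u') := by ring

/-- **Multiplicities.** -/
theorem mult (v N : ℕ) (hv : 2 ≤ v) (hN : v ≤ N) :
    {w : List (Fin M) | K w = v}.ncard ≤ 2 * (M + 2) * (T M ((M + 1) ^ 2 * N)).ncard := by
  have hfin : {w : List (Fin M) | K w = v}.Finite := (finite_K M v).subset fun w hw => by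
    have : K w = v := hw
    exact this.le
  rw [Set.ncard_eq_toFinset_card _ hfin, Set.ncard_eq_toFinset_card _ (finite_T M _)]
  have hsp : ∀ w : List (Fin M), ∃ u r : List (Fin M), K w = v →
      (w = u ++ r ∧ K u ^ 2 ≤ (M + 1) ^ 2 * v ∧ v ≤ (M + 1) * (K u * be u) ∧ 1 ≤ be u) := by
    intro w
    by_cases h : K w = v
    · obtain ⟨u, r, e⟩ := split v hv w h
      exact ⟨u, r, fun _ => e⟩
    · exact ⟨[], [], fun h' => absurd h' h⟩
  choose pre suf hps using hsp
  have h1 := Finset.card_le_mul_card_image (f := pre) hfin.toFinset (2 * (M + 2)) (by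
    intro u hu
    obtain ⟨w0, hw0, hw0u⟩ := Finset.mem_image.1 hu
    rw [Set.Finite.mem_toFinset] at hw0
    obtain ⟨_, _, hv3, hv4⟩ := hps w0 hw0
    rw [hw0u] at hv3 hv4
    set Fb := hfin.toFinset.filter (fun w => pre w = u) with hFb
    have hmem : ∀ w ∈ Fb, K w = v ∧ w = u ++ suf w := by
      intro w hw
      rw [hFb, Finset.mem_filter, Set.Finite.mem_toFinset] at hw
      have h5 := (hps w hw.1).1
      rw [hw.2] at h5
      exact ⟨hw.1, h5⟩
    have hinj : Set.InjOn (fun w => (kp (suf w), (suf w).length % 2)) (Fb : Set (List (Fin M))) := by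
      intro w hw w' hw' heq
      obtain ⟨_, e1⟩ := hmem w hw
      obtain ⟨_, e2⟩ := hmem w' hw'
      simp only [Prod.mk.injEq] at heq
      have e3 := kp_inj _ _ heq.1 heq.2
      rw [e1, e2, e3]
    have hmap : ∀ w ∈ Fb, (kp (suf w), (suf w).length % 2) ∈ (Fb.image fun w => kp (suf w)) ×ˢ Finset.range 2 := by
      intro w hw
      rw [Finset.mem_product]
      exact ⟨Finset.mem_image_of_mem _ hw, Finset.mem_range.2 (Nat.mod_lt _ (by norm_num))⟩
    have h6 := Finset.card_le_card_of_injOn _ hmap hinj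
    rw [Finset.card_product, Finset.card_range] at h6
    have h7 : (Fb.image fun w => kp (suf w)).card ≤ v / (K u * be u) + 1 := by
      apply sol_card _ _ _ (K_pos u) hv4 (coprime_K_be u)
      intro p hp
      obtain ⟨w, hw, rfl⟩ := Finset.mem_image.1 hp
      obtain ⟨e1, e2⟩ := hmem w hw
      rw [e2, K_append] at e1
      exact e1
    have h8 : v / (K u * be u) ≤ M + 1 := by
      apply Nat.div_le_of_le_mul
      rw [mul_comm]
      exact hv3
    calc Fb.card ≤ _ := h6
      _ ≤ (M + 2) * 2 := Nat.mul_le_mul_right _ (by omega)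
      _ = 2 * (M + 2) := by ring)
  refine h1.trans (Nat.mul_le_mul_left _ (Finset.card_le_card ?_))
  intro u hu
  obtain ⟨w0, hw0, rfl⟩ := Finset.mem_image.1 hu
  rw [Set.Finite.mem_toFinset] at hw0 ⊢
  obtain ⟨_, h2, _, _⟩ := hps w0 hw0
  show K (pre w0) ^ 2 ≤ (M + 1) ^ 2 * N
  exact h2.trans (Nat.mul_le_mul_left _ hN)

end Pool.Agent.N475.ZQ
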