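import Pool.Agent.N475.ZQ.A

set_option autoImplicit false

/-!
# Doubling, products and blocks (helper475)
-/

namespace Pool.Agent.N475.ZQ

open Finset Classical

variable {M : ℕ}

lemma T_mono {R R' : ℕ} (h : R ≤ R') : T M R ⊆ T M R' := fun _ hw => le_trans hw h

lemma T_card_mono {R R' : ℕ} (h : R ≤ R') : (T M R).ncard ≤ (T M R').ncard :=
  Set.ncard_le_ncard (T_mono h) (finite_T M R')

lemma T_pos {R : ℕ} (h : 1 ≤ R) : 1 ≤ (T M R).ncard := by
  rw [Nat.one_le_iff_ne_zero, ← Nat.pos_iff_ne_zero, Set.ncard_pos (finite_T M R)]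
  exact ⟨[], by show K ([] : List (Fin M)) ^ 2 ≤ R; simpa using h⟩

lemma short_card : {w : List (Fin M) | w.length ≤ 1}.ncard ≤ M + 1 := by
  have hsub : {w : List (Fin M) | w.length ≤ 1} ⊆
      ((insert [] (Finset.univ.image fun a : Fin M => [a]) : Finset (List (Fin M))) : Set (List (Fin M))) := by
    intro w hw
    have h : w.length ≤ 1 := hw
    rw [Finset.mem_coe, Finset.mem_insert, Finset.mem_image]
    match w, h with
    | [], _ => exact Or.inl rfl
    | [a], _ => exact Or.inr ⟨a, Finset.mem_univ a, rfl⟩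
  have h1 := Set.ncard_le_ncard hsub (Finset.finite_toSet _)
  rw [Set.ncard_coe_finset] at h1
  refine h1.trans ((Finset.card_insert_le _ _).trans ?_)
  have := Finset.card_image_le (s := (Finset.univ : Finset (Fin M))) (f := fun a : Fin M => [a])
  rw [Finset.card_univ, Fintype.card_fin] at this
  omega

/-- **Doubling.** -/
lemma double {R : ℕ} (hR : 1 ≤ R) : (T M (4 * R)).ncard ≤ (M ^ 2 + M + 1) * (T M R).ncard := by
  have hsub : T M (4 * R) ⊆ {w : List (Fin M) | w.length ≤ 1} ∪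
      (fun p : (List (Fin M)) × (Fin M × Fin M) => p.1 ++ [p.2.1] ++ [p.2.2]) '' (T M R ×ˢ (Set.univ : Set (Fin M × Fin M))) := by
    intro w hw
    have h4 : K w ^ 2 ≤ 4 * R := hw
    by_cases h : w.length ≤ 1
    · exact Or.inl h
    · right
      have hne : w ≠ [] := by
        rintro rfl
        simp at h
      obtain ⟨w', b, hb⟩ : ∃ w' b, w = w' ++ [b] := ⟨w.dropLast, w.getLast hne, (List.dropLast_append_getLast hne).symm⟩
      have hne' : w' ≠ [] := by
        rintro rfl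
        rw [hb] at h
        simp at h
      obtain ⟨u, a, ha⟩ : ∃ u a, w' = u ++ [a] := ⟨w'.dropLast, w'.getLast hne', (List.dropLast_append_getLast hne').symm⟩
      refine ⟨(u, (a, b)), ⟨?_, Set.mem_univ _⟩, ?_⟩
      · show K u ^ 2 ≤ R
        have := K_two u a b
        rw [hb, ha] at h4
        nlinarith
      · show u ++ [a] ++ [b] = w
        rw [hb, ha]
  have hfin : ((fun p : (List (Fin M)) × (Fin M × Fin M) => p.1 ++ [p.2.1] ++ [p.2.2]) ''
      (T M R ×ˢ (Set.univ : Set (Fin M × Fin M)))).Finite :=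
    Set.Finite.image _ ((finite_T M R).prod Set.finite_univ)
  have hfin1 : {w : List (Fin M) | w.length ≤ 1}.Finite := List.finite_length_le (Fin M) 1
  have h1 := (Set.ncard_le_ncard hsub (hfin1.union hfin)).trans (Set.ncard_union_le _ _)
  have h2 := Set.ncard_image_le (f := fun p : (List (Fin M)) × (Fin M × Fin M) => p.1 ++ [p.2.1] ++ [p.2.2])
    ((finite_T M R).prod (Set.finite_univ (α := Fin M × Fin M)))
  rw [Set.ncard_prod] at h2
  have h3 : (Set.univ : Set (Fin M × Fin M)).ncard = M * M := by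
    rw [Set.ncard_univ, Nat.card_prod]
    simp
  rw [h3] at h2
  have h4 := short_card (M := M)
  have h5 := T_pos (M := M) hR
  calc (T M (4 * R)).ncard ≤ _ := h1
    _ ≤ (M + 1) + (T M R).ncard * (M * M) := by omega
    _ ≤ (M + 1) * (T M R).ncard + (T M R).ncard * (M * M) := by nlinarith
    _ = _ := by ring

lemma double_iter {R : ℕ} (hR : 1 ≤ R) (k : ℕ) :
    (T M (4 ^ k * R)).ncard ≤ (M ^ 2 + M + 1) ^ k * (T M R).ncard := by
  induction k with
  | zero => simp
  | succ k ih =>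
    have h1 : 1 ≤ 4 ^ k * R := Nat.one_le_iff_ne_zero.2 (by positivity)
    calc (T M (4 ^ (k + 1) * R)).ncard = (T M (4 * (4 ^ k * R))).ncard := by
          congr 2
          ring
      _ ≤ (M ^ 2 + M + 1) * (T M (4 ^ k * R)).ncard := double h1
      _ ≤ (M ^ 2 + M + 1) * ((M ^ 2 + M + 1) ^ k * (T M R).ncard) := Nat.mul_le_mul_left _ ih
      _ = _ := by ring

/-- **Products.** -/
lemma prod_le (N : ℕ) :
    (T M (N / 2)).ncard ^ 2 ≤ (2 * Nat.log 2 N + 2) * {w : List (Fin M) | K w ≤ N}.ncard := by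
  have h1 : ∀ p ∈ T M (N / 2) ×ˢ T M (N / 2),
      (fun p : List (Fin M) × List (Fin M) => (p.1 ++ p.2, p.1.length)) p ∈
        {w : List (Fin M) | K w ≤ N} ×ˢ ((Finset.range (2 * Nat.log 2 N + 2) : Finset ℕ) : Set ℕ) := by
    rintro ⟨u, v⟩ ⟨hu, hv⟩
    have hu' : K u ^ 2 ≤ N / 2 := hu
    have hv' : K v ^ 2 ≤ N / 2 := hv
    have h2 : K u * K v ≤ N / 2 := by
      by_contra hcon
      push Not at hcon
      have : (N / 2) * (N / 2) < (K u * K v) * (K u * K v) := Nat.mul_lt_mul'' hcon hcon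
      have h3 : (K u * K v) * (K u * K v) ≤ (N / 2) * (N / 2) := by
        calc (K u * K v) * (K u * K v) = K u ^ 2 * K v ^ 2 := by ring
          _ ≤ _ := Nat.mul_le_mul hu' hv'
      omega
    have h3 : K (u ++ v) ≤ N := by
      have := K_append_le u v
      have h4 : 2 * (N / 2) ≤ N := Nat.mul_div_le N 2
      nlinarith
    refine ⟨h3, ?_⟩
    rw [Finset.mem_coe, Finset.mem_range]
    have h5 : K u ≤ N := (K_le_append u v).trans h3
    have := len_le h5
    show u.length < _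
    omega
  have h2 : Set.InjOn (fun p : List (Fin M) × List (Fin M) => (p.1 ++ p.2, p.1.length)) (T M (N / 2) ×ˢ T M (N / 2)) := by
    rintro ⟨u, v⟩ _ ⟨u', v'⟩ _ h
    simp only [Prod.mk.injEq] at h
    obtain ⟨e1, e2⟩ := List.append_inj h.1 h.2
    rw [e1, e2]
  have hfin : ({w : List (Fin M) | K w ≤ N} ×ˢ ((Finset.range (2 * Nat.log 2 N + 2) : Finset ℕ) : Set ℕ)).Finite :=
    (finite_K M N).prod (Finset.finite_toSet _)
  have h3 := Set.ncard_le_ncard_of_injOn _ h1 h2 hfin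
  rw [Set.ncard_prod, Set.ncard_prod, Set.ncard_coe_finset, Finset.card_range] at h3
  calc (T M (N / 2)).ncard ^ 2 = (T M (N / 2)).ncard * (T M (N / 2)).ncard := by ring
    _ ≤ _ := h3
    _ = _ := by ring

/-- **Blocks.** `s` words of the same length with continuant at most `Q` -/
lemma blocks (Q ℓ s : ℕ) (hQ : 1 ≤ Q) (Bl : Finset (List (Fin M))) (hs : s ≤ Bl.card)
    (hB : ∀ w ∈ Bl, K w ≤ Q ∧ w.length = ℓ) (j : ℕ) : s ^ j ≤ (T M (((2 * Q) ^ 2) ^ j)).ncard := by
  induction j with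
  | zero => simpa using T_pos (M := M) (le_refl 1)
  | succ j ih =>
    have h1 : ∀ p ∈ (Bl : Set (List (Fin M))) ×ˢ T M (((2 * Q) ^ 2) ^ j),
        (fun p : List (Fin M) × List (Fin M) => p.1 ++ p.2) p ∈ T M (((2 * Q) ^ 2) ^ (j + 1)) := by
      rintro ⟨b, w⟩ ⟨hb, hw⟩
      have hb' := (hB b hb).1
      have hw' : K w ^ 2 ≤ ((2 * Q) ^ 2) ^ j := hw
      show K (b ++ w) ^ 2 ≤ _
      have h2 := K_append_le b w
      calc K (b ++ w) ^ 2 ≤ (2 * K b * K w) ^ 2 := Nat.pow_le_pow_left h2 2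
        _ = (2 * K b) ^ 2 * K w ^ 2 := by ring
        _ ≤ (2 * Q) ^ 2 * ((2 * Q) ^ 2) ^ j :=
          Nat.mul_le_mul (Nat.pow_le_pow_left (Nat.mul_le_mul_left _ hb') 2) hw'
        _ = _ := by ring
    have h2 : Set.InjOn (fun p : List (Fin M) × List (Fin M) => p.1 ++ p.2)
        ((Bl : Set (List (Fin M))) ×ˢ T M (((2 * Q) ^ 2) ^ j)) := by
      rintro ⟨b, w⟩ ⟨hb, _⟩ ⟨b', w'⟩ ⟨hb', _⟩ h
      obtain ⟨e1, e2⟩ := List.append_inj h (by
        show b.length = b'.length
        rw [(hB b hb).2, (hB b' hb').2])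
      simp only at e1 e2
      rw [e1, e2]
    have h3 := Set.ncard_le_ncard_of_injOn _ h1 h2 (finite_T M _)
    rw [Set.ncard_prod, Set.ncard_coe_finset] at h3
    calc s ^ (j + 1) = s * s ^ j := by ring
      _ ≤ Bl.card * (T M (((2 * Q) ^ 2) ^ j)).ncard := Nat.mul_le_mul hs ih
      _ ≤ _ := h3

end Pool.Agent.N475.ZQ
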