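import Pool.Agent.N475.ZQ.C

set_option autoImplicit false

/-!
# The growth of the number of words (helper475)

For every `δ > 0` and all large `M` the number of words with partial quotients at most `M` and `K(w)^2 ≤ R` is at least
`c R^(1 - δ)`.
-/

namespace Pool.Agent.N475.ZQ

open Finset Classical Filter Topology

variable {M : ℕ}

lemma exists_word (d : ℕ) : ∀ b : ℕ, 1 ≤ b → b ≤ d → d ≤ M → Nat.Coprime d b → ∃ w : List (Fin M), kp w = (d, b) := by
  induction d using Nat.strong_induction_on with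
  | _ d ih =>
    intro b hb hbd hdM hc
    rcases Nat.lt_or_ge b 2 with h1 | h1
    · have hb1 : b = 1 := by omega
      subst hb1
      refine ⟨[⟨d - 1, by omega⟩], ?_⟩
      show ((d - 1 + 1) * 1 + 0, 1) = (d, 1)
      rw [Nat.sub_add_cancel hbd, mul_one, add_zero]
    · have hne : b ≠ d := by
        rintro rfl
        rw [Nat.coprime_self] at hc
        omega
      have hr0 : d % b ≠ 0 := by
        intro h0
        have : b ∣ d := Nat.dvd_of_mod_eq_zero h0
        have := Nat.Coprime.eq_one_of_dvd hc.symm this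
        omega
      have hrb : d % b < b := Nat.mod_lt _ (by omega)
      have hcr : Nat.Coprime b (d % b) := by
        rw [Nat.coprime_comm]
        show Nat.gcd (d % b) b = 1
        rw [← Nat.gcd_rec b d]
        exact hc.symm
      obtain ⟨w, hw⟩ := ih b (by omega) (d % b) (by omega) hrb.le (by omega) hcr
      have hdiv : 1 ≤ d / b := Nat.div_pos hbd (by omega)
      have hdiv2 : d / b ≤ d := Nat.div_le_self d b
      refine ⟨⟨d / b - 1, by omega⟩ :: w, ?_⟩
      rw [kp_cons, hw]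
      show ((d / b - 1 + 1) * b + d % b, b) = (d, b)
      rw [Nat.sub_add_cancel hdiv, mul_comm, Nat.div_add_mod]

lemma sum_sq (n : ℕ) (hn : 2 ≤ n) : ∑ g ∈ Finset.Icc 2 n, (1 : ℝ) / (g : ℝ) ^ 2 ≤ 3 / 4 - 1 / n := by
  induction n, hn using Nat.le_induction with
  | base => norm_num
  | succ n hn ih =>
    rw [Finset.sum_Icc_succ_top (by omega)]
    have hn0 : (0 : ℝ) < n := by
      have : 0 < n := by omega
      exact_mod_cast this
    have h1 : (1 : ℝ) / ((n : ℝ) + 1) ^ 2 ≤ 1 / n - 1 / (n + 1) := by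
      rw [div_sub_div _ _ hn0.ne' (by positivity), div_le_div_iff₀ (by positivity) (by positivity)]
      nlinarith
    push_cast
    linarith

/-- at least a quarter of the pairs is coprime -/
lemma coprime_pairs (M : ℕ) (hM : 2 ≤ M) :
    (M : ℝ) ^ 2 / 4 ≤ (((Finset.Ioc 0 M) ×ˢ (Finset.Ioc 0 M)).filter (fun p => Nat.Coprime p.1 p.2)).card := by
  set A := (Finset.Ioc 0 M) ×ˢ (Finset.Ioc 0 M) with hA
  have hAc : A.card = M * M := by
    rw [hA, Finset.card_product]
    simp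
  have h1 := Finset.card_filter_add_card_filter_not (s := A) (fun p => Nat.Coprime p.1 p.2)
  have h2 : (A.filter (fun p => ¬ Nat.Coprime p.1 p.2)) ⊆
      (Finset.Icc 2 M).biUnion (fun g => ((Finset.Ioc 0 M).filter (g ∣ ·)) ×ˢ ((Finset.Ioc 0 M).filter (g ∣ ·))) := by
    intro p hp
    rw [Finset.mem_filter, hA, Finset.mem_product, Finset.mem_Ioc, Finset.mem_Ioc] at hp
    obtain ⟨⟨⟨a1, a2⟩, b1, b2⟩, hn⟩ := hp
    rw [Finset.mem_biUnion]
    have hg0 : 0 < Nat.gcd p.1 p.2 := Nat.gcd_pos_of_pos_left _ a1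
    have hg1 : Nat.gcd p.1 p.2 ≤ M := (Nat.gcd_le_left _ a1).trans a2
    refine ⟨Nat.gcd p.1 p.2, ?_, ?_⟩
    · rw [Finset.mem_Icc]
      have : Nat.gcd p.1 p.2 ≠ 1 := hn
      omega
    · rw [Finset.mem_product, Finset.mem_filter, Finset.mem_filter, Finset.mem_Ioc, Finset.mem_Ioc]
      exact ⟨⟨⟨a1, a2⟩, Nat.gcd_dvd_left _ _⟩, ⟨b1, b2⟩, Nat.gcd_dvd_right _ _⟩
  have h3 : ((A.filter (fun p => ¬ Nat.Coprime p.1 p.2)).card : ℝ) ≤ (M : ℝ) ^ 2 * (3 / 4) := by
    have h4 := (Finset.card_le_card h2).trans Finset.card_biUnion_le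
    have h5 : ((A.filter (fun p => ¬ Nat.Coprime p.1 p.2)).card : ℝ) ≤
        ∑ g ∈ Finset.Icc 2 M, (M : ℝ) ^ 2 * (1 / (g : ℝ) ^ 2) := by
      calc ((A.filter (fun p => ¬ Nat.Coprime p.1 p.2)).card : ℝ)
          ≤ ∑ g ∈ Finset.Icc 2 M, ((((Finset.Ioc 0 M).filter (g ∣ ·)) ×ˢ ((Finset.Ioc 0 M).filter (g ∣ ·))).card : ℝ) := by
            exact_mod_cast h4
        _ ≤ _ := by
            apply Finset.sum_le_sum
            intro g hg
            rw [Finset.mem_Icc] at hg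
            rw [Finset.card_product, Nat.Ioc_filter_dvd_card_eq_div]
            have hg0 : (0 : ℝ) < g := by
              have : 0 < g := by omega
              exact_mod_cast this
            have h6 : ((M / g : ℕ) : ℝ) ≤ (M : ℝ) / g := Nat.cast_div_le
            push_cast
            calc ((M / g : ℕ) : ℝ) * ((M / g : ℕ) : ℝ) ≤ ((M : ℝ) / g) * ((M : ℝ) / g) :=
                  mul_le_mul h6 h6 (by positivity) (by positivity)
              _ = _ := by field_simp
    rw [← Finset.mul_sum] at h5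
    have h6 := sum_sq M hM
    have h7 : (0 : ℝ) ≤ 1 / (M : ℝ) := by positivity
    exact h5.trans (mul_le_mul_of_nonneg_left (by linarith) (by positivity))
  have h7 : ((A.filter (fun p => Nat.Coprime p.1 p.2)).card : ℝ) +
      ((A.filter (fun p => ¬ Nat.Coprime p.1 p.2)).card : ℝ) = (M : ℝ) ^ 2 := by
    have : ((A.filter (fun p => Nat.Coprime p.1 p.2)).card : ℝ) +
      ((A.filter (fun p => ¬ Nat.Coprime p.1 p.2)).card : ℝ) = (A.card : ℝ) := by exact_mod_cast h1
    rw [this, hAc]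
    push_cast
    ring
  linarith

/-- at least `M ^ 2 / 8` words have continuant at most `M` -/
lemma words_card (M : ℕ) (hM : 2 ≤ M) : (M : ℝ) ^ 2 / 8 ≤ ({w : List (Fin M) | K w ≤ M}.ncard : ℝ) := by
  have h0 := coprime_pairs M hM
  set C := ((Finset.Ioc 0 M) ×ˢ (Finset.Ioc 0 M)).filter (fun p => Nat.Coprime p.1 p.2) with hC
  have hmem : ∀ p ∈ C, (0 < p.1 ∧ p.1 ≤ M) ∧ (0 < p.2 ∧ p.2 ≤ M) ∧ Nat.Coprime p.1 p.2 := by
    intro p hp
    rw [hC, Finset.mem_filter, Finset.mem_product, Finset.mem_Ioc, Finset.mem_Ioc] at hp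
    exact ⟨hp.1.1, hp.1.2, hp.2⟩
  have hex : ∀ p : ℕ × ℕ, ∃ w : List (Fin M), p ∈ C → kp w = (max p.1 p.2, min p.1 p.2) := by
    intro p
    by_cases hp : p ∈ C
    · obtain ⟨⟨a1, a2⟩, ⟨b1, b2⟩, hc⟩ := hmem p hp
      obtain ⟨w, hw⟩ := exists_word (M := M) (max p.1 p.2) (min p.1 p.2) (by omega) (by omega) (by omega) (by
        rcases le_total p.1 p.2 with h | h
        · rw [max_eq_right h, min_eq_left h]
          exact hc.symm
        · rw [max_eq_left h, min_eq_right h]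
          exact hc)
      exact ⟨w, fun _ => hw⟩
    · exact ⟨[], fun h => absurd h hp⟩
  choose g hg using hex
  have h1 : ∀ p ∈ (C : Set (ℕ × ℕ)), (fun p : ℕ × ℕ => (g p, decide (p.1 ≤ p.2))) p ∈
      {w : List (Fin M) | K w ≤ M} ×ˢ (Set.univ : Set Bool) := by
    intro p hp
    refine ⟨?_, Set.mem_univ _⟩
    obtain ⟨⟨a1, a2⟩, ⟨b1, b2⟩, _⟩ := hmem p hp
    show (kp (g p)).1 ≤ M
    rw [hg p hp]
    show max p.1 p.2 ≤ M
    omega
  have h2 : Set.InjOn (fun p : ℕ × ℕ => (g p, decide (p.1 ≤ p.2))) (C : Set (ℕ × ℕ)) := by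
    intro p hp q hq h
    simp only [Prod.mk.injEq, decide_eq_decide] at h
    obtain ⟨e1, e2⟩ := h
    have e3 : (max p.1 p.2, min p.1 p.2) = (max q.1 q.2, min q.1 q.2) := by
      rw [← hg p hp, ← hg q hq, e1]
    rw [Prod.mk.injEq] at e3
    obtain ⟨e4, e5⟩ := e3
    by_cases hpp : p.1 ≤ p.2
    · have hqq := e2.1 hpp
      exact Prod.ext (by omega) (by omega)
    · have hqq : ¬ q.1 ≤ q.2 := fun h => hpp (e2.2 h)
      exact Prod.ext (by omega) (by omega)
  have h3 := Set.ncard_le_ncard_of_injOn _ h1 h2 ((finite_K M M).prod Set.finite_univ)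
  rw [Set.ncard_prod, Set.ncard_coe_finset] at h3
  have h4 : (Set.univ : Set Bool).ncard = 2 := by
    rw [Set.ncard_univ]
    simp
  rw [h4] at h3
  have h5 : (C.card : ℝ) ≤ ({w : List (Fin M) | K w ≤ M}.ncard : ℝ) * 2 := by exact_mod_cast h3
  linarith

/-- many words of the same length with continuant at most `M` -/
lemma same_length (M : ℕ) (hM : 2 ≤ M) : ∃ (ℓ : ℕ) (Bl : Finset (List (Fin M))),
    (M : ℝ) ^ 2 / (8 * (2 * Nat.log 2 M + 2)) ≤ Bl.card ∧ ∀ w ∈ Bl, K w ≤ M ∧ w.length = ℓ := by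
  have h0 := words_card M hM
  rw [Set.ncard_eq_toFinset_card _ (finite_K M M)] at h0
  set W := (finite_K M M).toFinset with hW
  have hmaps : ∀ w ∈ W, w.length ∈ Finset.range (2 * Nat.log 2 M + 2) := by
    intro w hw
    rw [hW, Set.Finite.mem_toFinset] at hw
    have := len_le (M := M) (w := w) (N := M) hw
    rw [Finset.mem_range]
    omega
  obtain ⟨ℓ, _, hℓ⟩ := Finset.exists_max_image (Finset.range (2 * Nat.log 2 M + 2))
    (fun ℓ => (W.filter (fun w => w.length = ℓ)).card) ⟨0, by simp⟩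
  refine ⟨ℓ, W.filter (fun w => w.length = ℓ), ?_, ?_⟩
  · have h1 : W.card = ∑ ℓ ∈ Finset.range (2 * Nat.log 2 M + 2), (W.filter (fun w => w.length = ℓ)).card :=
      Finset.card_eq_sum_card_fiberwise hmaps
    have h2 : W.card ≤ (2 * Nat.log 2 M + 2) * (W.filter (fun w => w.length = ℓ)).card := by
      rw [h1]
      refine (Finset.sum_le_sum hℓ).trans ?_
      rw [Finset.sum_const, Finset.card_range, smul_eq_mul]
    have h3 : (W.card : ℝ) ≤ (2 * Nat.log 2 M + 2) * (W.filter (fun w => w.length = ℓ)).card := by exact_mod_cast h2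
    rw [div_le_iff₀ (by positivity)]
    nlinarith
  · intro w hw
    rw [Finset.mem_filter, hW, Set.Finite.mem_toFinset] at hw
    exact hw

lemma log_small (δ : ℝ) (hδ : 0 < δ) : ∃ M₀ : ℕ, ∀ M : ℕ, M₀ ≤ M → 2 ≤ M ∧
    32 * (2 * (Nat.log 2 M : ℝ) + 2) ≤ (M : ℝ) ^ (2 * δ) := by
  have h1 := (isLittleO_log_rpow_atTop (show (0 : ℝ) < 2 * δ by linarith)).bound (show (0 : ℝ) < 1 / 256 by norm_num)
  have h2 := (tendsto_rpow_atTop (show (0 : ℝ) < 2 * δ by linarith)).eventually_ge_atTop 128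
  have h3 := tendsto_natCast_atTop_atTop (R := ℝ).eventually (h1.and h2)
  obtain ⟨M₀, hM₀⟩ := Filter.eventually_atTop.1 h3
  refine ⟨max M₀ 2, fun M hM => ⟨le_trans (le_max_right _ _) hM, ?_⟩⟩
  obtain ⟨h4, h5⟩ := hM₀ M (le_trans (le_max_left _ _) hM)
  have hM2 : 2 ≤ M := le_trans (le_max_right _ _) hM
  have hMr : (2 : ℝ) ≤ M := by exact_mod_cast hM2
  have h6 : (Nat.log 2 M : ℝ) ≤ Real.log M / Real.log 2 := by
    rw [le_div_iff₀ (Real.log_pos (by norm_num))]
    have h7 : 2 ^ Nat.log 2 M ≤ M := Nat.pow_log_le_self 2 (by omega)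
    have h8 : ((2 : ℝ)) ^ Nat.log 2 M ≤ M := by exact_mod_cast h7
    have h9 := Real.log_le_log (by positivity) h8
    rwa [Real.log_pow] at h9
  have h7 : Real.log M / Real.log 2 ≤ 2 * Real.log M := by
    rw [div_le_iff₀ (Real.log_pos (by norm_num))]
    have := Real.log_two_gt_d9
    have h8 : 0 ≤ Real.log M := Real.log_nonneg (by linarith)
    nlinarith
  rw [Real.norm_of_nonneg (Real.log_nonneg (by linarith)), Real.norm_of_nonneg (by positivity)] at h4
  linarith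

/-- **Growth.** -/
theorem growth (δ : ℝ) (hδ : 0 < δ) : ∃ M₀ : ℕ, ∀ M : ℕ, M₀ ≤ M → ∃ c : ℝ, 0 < c ∧ ∀ R : ℕ, 1 ≤ R →
    c * (R : ℝ) ^ (1 - δ) ≤ (T M R).ncard := by
  rcases le_or_gt 1 δ with h1 | h1
  · refine ⟨0, fun M _ => ⟨1, one_pos, fun R hR => ?_⟩⟩
    have hR1 : (1 : ℝ) ≤ R := by exact_mod_cast hR
    have h2 : (R : ℝ) ^ (1 - δ) ≤ 1 := Real.rpow_le_one_of_one_le_of_nonpos hR1 (by linarith)
    have h3 : (1 : ℝ) ≤ (T M R).ncard := by exact_mod_cast T_pos hR
    linarith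
  · obtain ⟨M₀, hM₀⟩ := log_small δ hδ
    refine ⟨M₀, fun M hM => ?_⟩
    obtain ⟨hM2, hlog⟩ := hM₀ M hM
    have hMr : (2 : ℝ) ≤ M := by exact_mod_cast hM2
    obtain ⟨ℓ, Bl, hB1, hB2⟩ := same_length M hM2
    set Q : ℕ := (2 * M) ^ 2 with hQ
    have hQ4 : 4 ≤ Q := by
      rw [hQ]
      nlinarith
    have hQr : (1 : ℝ) ≤ Q := by
      have : 1 ≤ Q := by omega
      exact_mod_cast this
    -- the block count
    have hs : (Q : ℝ) ^ (1 - δ) ≤ Bl.card := by
      refine le_trans ?_ hB1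
      have e1 : (Q : ℝ) ^ (1 - δ) ≤ 4 * ((M : ℝ) ^ 2 / (M : ℝ) ^ (2 * δ)) := by
        have e2 : (Q : ℝ) = 4 * (M : ℝ) ^ 2 := by
          rw [hQ]
          push_cast
          ring
        rw [e2, Real.mul_rpow (by norm_num) (by positivity)]
        have e3 : (4 : ℝ) ^ (1 - δ) ≤ 4 := by
          calc (4 : ℝ) ^ (1 - δ) ≤ (4 : ℝ) ^ (1 : ℝ) := Real.rpow_le_rpow_of_exponent_le (by norm_num) (by linarith)
            _ = 4 := Real.rpow_one _
        have e4 : ((M : ℝ) ^ 2) ^ (1 - δ) = (M : ℝ) ^ 2 / (M : ℝ) ^ (2 * δ) := by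
          rw [← Real.rpow_natCast, ← Real.rpow_mul (by positivity), ← Real.rpow_sub (by positivity)]
          congr 1
          push_cast
          ring
        rw [e4]
        exact mul_le_mul_of_nonneg_right e3 (by positivity)
      refine e1.trans ?_
      have hp : (0 : ℝ) < (M : ℝ) ^ (2 * δ) := by positivity
      rw [← mul_div_assoc, div_le_div_iff₀ hp (by positivity)]
      have : (0 : ℝ) ≤ (M : ℝ) ^ 2 := by positivity
      nlinarith
    refine ⟨((Q : ℝ) ^ (1 - δ))⁻¹, by positivity, fun R hR => ?_⟩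
    set j := Nat.log Q R with hj
    have h2 : Q ^ j ≤ R := Nat.pow_log_le_self Q (by omega)
    have h3 : R < Q ^ (j + 1) := Nat.lt_pow_succ_log_self (by omega) R
    have h4 := blocks M ℓ Bl.card (by omega) Bl le_rfl hB2 j
    have h5 : (Bl.card : ℝ) ^ j ≤ (T M R).ncard := by
      have h6 : Bl.card ^ j ≤ (T M R).ncard := h4.trans (T_card_mono h2)
      exact_mod_cast h6
    have h6 : ((Q : ℝ) ^ (1 - δ)) ^ j ≤ (Bl.card : ℝ) ^ j := pow_le_pow_left₀ (by positivity) hs j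
    have h7 : (R : ℝ) ^ (1 - δ) ≤ ((Q : ℝ) ^ (1 - δ)) ^ j * (Q : ℝ) ^ (1 - δ) := by
      rw [← pow_succ, ← Real.rpow_natCast, ← Real.rpow_mul (by positivity), mul_comm (1 - δ), Real.rpow_mul (by positivity),
        Real.rpow_natCast]
      apply Real.rpow_le_rpow (by positivity) _ (by linarith)
      exact_mod_cast h3.le
    rw [inv_mul_le_iff₀ (by positivity)]
    calc (R : ℝ) ^ (1 - δ) ≤ ((Q : ℝ) ^ (1 - δ)) ^ j * (Q : ℝ) ^ (1 - δ) := h7
      _ ≤ (T M R).ncard * (Q : ℝ) ^ (1 - δ) := mul_le_mul_of_nonneg_right (h6.trans h5) (by positivity)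
      _ = _ := mul_comm _ _

end Pool.Agent.N475.ZQ
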