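import Pool.Agent.N475.ZQ.B
import Pool.Agent.N475.ZQ.D
import Pool.Agent.N733.TG.K

set_option autoImplicit false

/-!
# Denominators of fractions with bounded partial quotients keep away from sets with a power saving (helper475)

`K w` is the continuant of the word `w` with the partial quotients `1, …, M`. Let `B` be a set of natural numbers with
`O(X^θ)` elements up to `X`, `θ < 1`, and let `η < 1 - θ`. For all `M ≥ M₀(θ, η)`, among the words `w` with `K w ≤ N` all but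
a proportion `N^(-η)` have `K w ∉ B`. The values `K w` are taken with large multiplicities, and only the words with partial
quotients at most `M` are used.
-/

namespace Pool.Agent.N475.ZQ

open Finset Classical Filter Topology

open Pool.Agent.N733.TG (Expanding NearG nearG_count)

/-- the property `P` holds for the continuants of all words with partial quotients at most `M` and continuant at most `N`,
except for a proportion `N^(-η)` of these words, if `N` is large -/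
def AlmostAll (M : ℕ) (η : ℝ) (P : ℕ → Prop) : Prop :=
  ∃ N₀ : ℕ, ∀ N : ℕ, N₀ ≤ N →
    ({w : List (Fin M) | K w ≤ N ∧ ¬ P (K w)}.ncard : ℝ) ≤ (N : ℝ) ^ (-η) * ({w : List (Fin M) | K w ≤ N}.ncard : ℝ)

lemma AlmostAll.mono {M : ℕ} {η : ℝ} {P P' : ℕ → Prop} (h : AlmostAll M η P) (hP : ∀ v, 1 ≤ v → P v → P' v) :
    AlmostAll M η P' := by
  obtain ⟨N₀, h⟩ := h
  refine ⟨N₀, fun N hN => le_trans ?_ (h N hN)⟩
  have hsub : {w : List (Fin M) | K w ≤ N ∧ ¬ P' (K w)} ⊆ {w : List (Fin M) | K w ≤ N ∧ ¬ P (K w)} := by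
    rintro w ⟨h1, h2⟩
    exact ⟨h1, fun h3 => h2 (hP _ (K_pos w) h3)⟩
  exact_mod_cast Set.ncard_le_ncard hsub ((finite_K M N).subset fun w hw => hw.1)

variable {M : ℕ}

lemma mult' (v N : ℕ) (hv : 1 ≤ v) (hN : v ≤ N) :
    {w : List (Fin M) | K w = v}.ncard ≤ 2 * (M + 2) * (T M ((M + 1) ^ 2 * N)).ncard := by
  rcases Nat.lt_or_ge v 2 with h | h
  · have hv1 : v = 1 := by omega
    subst hv1
    have hsub : {w : List (Fin M) | K w = 1} ⊆ T M ((M + 1) ^ 2 * N) := by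
      intro w hw
      have h1 : K w = 1 := hw
      show K w ^ 2 ≤ _
      rw [h1]
      nlinarith [Nat.zero_le (M ^ 2 * N), Nat.zero_le (M * N)]
    have h2 := Set.ncard_le_ncard hsub (finite_T M _)
    nlinarith [Nat.zero_le (M * (T M ((M + 1) ^ 2 * N)).ncard)]
  · exact mult v N h hN

lemma bad_le (B : Set ℕ) (N : ℕ) :
    {w : List (Fin M) | K w ≤ N ∧ K w ∈ B}.ncard ≤
      ((Icc 1 N).filter (fun v => v ∈ B)).card * (2 * (M + 2) * (T M ((M + 1) ^ 2 * N)).ncard) := by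
  have hfinv : ∀ v : ℕ, {w : List (Fin M) | K w = v}.Finite := fun v => (finite_K M v).subset fun w hw => by
    have : K w = v := hw
    exact this.le
  have hsub : {w : List (Fin M) | K w ≤ N ∧ K w ∈ B} ⊆
      (((Icc 1 N).filter (fun v => v ∈ B)).biUnion (fun v => (hfinv v).toFinset) : Finset (List (Fin M))) := by
    rintro w ⟨h1, h2⟩
    rw [mem_coe, mem_biUnion]
    exact ⟨K w, mem_filter.2 ⟨mem_Icc.2 ⟨K_pos w, h1⟩, h2⟩, by rw [Set.Finite.mem_toFinset]; rfl⟩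
  have h1 := Set.ncard_le_ncard hsub (finite_toSet _)
  rw [Set.ncard_coe_finset] at h1
  refine h1.trans (card_biUnion_le.trans ?_)
  rw [← smul_eq_mul, ← sum_const]
  apply sum_le_sum
  intro v hv
  rw [mem_filter, mem_Icc] at hv
  rw [← Set.ncard_eq_toFinset_card _ (hfinv v)]
  exact mult' v N hv.1.1 hv.1.2

lemma log_small' (C δ : ℝ) (hδ : 0 < δ) : ∃ N₀ : ℕ, ∀ N : ℕ, N₀ ≤ N → 2 ≤ N ∧
    C * (2 * (Nat.log 2 N : ℝ) + 2) ≤ (N : ℝ) ^ δ := by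
  have h1 := (isLittleO_log_rpow_atTop hδ).bound (show (0 : ℝ) < 1 / (8 * (|C| + 1)) by positivity)
  have h2 := (tendsto_rpow_atTop hδ).eventually_ge_atTop (4 * (|C| + 1))
  have h3 := tendsto_natCast_atTop_atTop (R := ℝ).eventually (h1.and h2)
  obtain ⟨M₀, hM₀⟩ := Filter.eventually_atTop.1 h3
  refine ⟨max M₀ 2, fun N hM => ⟨le_trans (le_max_right _ _) hM, ?_⟩⟩
  obtain ⟨h4, h5⟩ := hM₀ N (le_trans (le_max_left _ _) hM)
  have hM2 : 2 ≤ N := le_trans (le_max_right _ _) hM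
  have hMr : (2 : ℝ) ≤ N := by exact_mod_cast hM2
  have h6 : (Nat.log 2 N : ℝ) ≤ Real.log N / Real.log 2 := by
    rw [le_div_iff₀ (Real.log_pos (by norm_num))]
    have h7 : 2 ^ Nat.log 2 N ≤ N := Nat.pow_log_le_self 2 (by omega)
    have h8 : ((2 : ℝ)) ^ Nat.log 2 N ≤ N := by exact_mod_cast h7
    have h9 := Real.log_le_log (by positivity) h8
    rwa [Real.log_pow] at h9
  have h7 : Real.log N / Real.log 2 ≤ 2 * Real.log N := by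
    rw [div_le_iff₀ (Real.log_pos (by norm_num))]
    have := Real.log_two_gt_d9
    have h8 : 0 ≤ Real.log N := Real.log_nonneg (by linarith)
    nlinarith
  rw [Real.norm_of_nonneg (Real.log_nonneg (by linarith)), Real.norm_of_nonneg (by positivity)] at h4
  have hC0 : 0 ≤ |C| := abs_nonneg C
  have h8 : C * (2 * (Nat.log 2 N : ℝ) + 2) ≤ (|C| + 1) * (4 * Real.log N + 2) := by
    have e1 : 2 * (Nat.log 2 N : ℝ) + 2 ≤ 4 * Real.log N + 2 := by linarith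
    have e2 : 0 ≤ 2 * (Nat.log 2 N : ℝ) + 2 := by positivity
    have e3 : C ≤ |C| + 1 := by linarith [le_abs_self C]
    calc C * (2 * (Nat.log 2 N : ℝ) + 2) ≤ (|C| + 1) * (2 * (Nat.log 2 N : ℝ) + 2) :=
          mul_le_mul_of_nonneg_right e3 e2
      _ ≤ _ := mul_le_mul_of_nonneg_left e1 (by positivity)
  have h9 : (|C| + 1) * (4 * Real.log N) ≤ (1 / 2) * (N : ℝ) ^ δ := by
    have e1 : (|C| + 1) * (4 * Real.log N) ≤ (|C| + 1) * (4 * (1 / (8 * (|C| + 1)) * (N : ℝ) ^ δ)) := by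
      apply mul_le_mul_of_nonneg_left _ (by positivity)
      linarith
    refine e1.trans (le_of_eq ?_)
    field_simp
    ring
  linarith

/-- **Main tool.** If `B` has at most `C X^θ` elements up to `X` and `θ + η < 1`, then for every bound `M ≥ M₀(θ, η)` on the
partial quotients all the words `w` with `K w ≤ N` but a proportion `N^(-η)` have `K w ∉ B`. -/
theorem avoid (θ η : ℝ) (hθ : 0 ≤ θ) (hη : 0 ≤ η) (h : θ + η < 1) : ∃ M₀ : ℕ, ∀ M : ℕ, M₀ ≤ M → ∀ (B : Set ℕ) (C : ℝ),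
    (∀ X : ℕ, 1 ≤ X → (((Icc 1 X).filter (fun v => v ∈ B)).card : ℝ) ≤ C * (X : ℝ) ^ θ) →
    AlmostAll M η (fun v => v ∉ B) := by
  obtain ⟨δ, hδ⟩ : ∃ δ : ℝ, δ = (1 - θ - η) / 2 := ⟨_, rfl⟩
  have hδ0 : 0 < δ := by rw [hδ]; linarith
  have hδ1 : δ < 1 := by rw [hδ]; linarith
  obtain ⟨M₀, hM₀⟩ := growth δ hδ0
  refine ⟨M₀, fun M hM B C hC => ?_⟩
  obtain ⟨c, hc, hgr⟩ := hM₀ M hM
  obtain ⟨k, hk⟩ : ∃ k : ℕ, (M + 1) ^ 2 * 3 ≤ 4 ^ k := ⟨(M + 1) ^ 2 * 3, (Nat.lt_pow_self (by norm_num)).le⟩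
  obtain ⟨C₁, hC₁⟩ : ∃ C₁ : ℝ, C₁ = |C| * (2 * (M + 2) * (M ^ 2 + M + 1) ^ k) := ⟨_, rfl⟩
  have hC₁0 : 0 ≤ C₁ := by rw [hC₁]; positivity
  obtain ⟨N₀, hN₀⟩ := log_small' (C₁ * ((3 : ℝ) ^ (1 - δ) / c)) δ hδ0
  refine ⟨N₀, fun N hN => ?_⟩
  obtain ⟨hN2, hlog⟩ := hN₀ N hN
  have hNr : (2 : ℝ) ≤ N := by exact_mod_cast hN2
  have hNp : (0 : ℝ) < N := by linarith
  obtain ⟨D, hD⟩ : ∃ D : ℝ, D = ((T M (N / 2)).ncard : ℝ) := ⟨_, rfl⟩
  obtain ⟨Z, hZ⟩ : ∃ Z : ℝ, Z = ({w : List (Fin M) | K w ≤ N}.ncard : ℝ) := ⟨_, rfl⟩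
  have hR1 : 1 ≤ N / 2 := by omega
  have hD1 : 1 ≤ D := by
    rw [hD]
    exact_mod_cast T_pos hR1
  have hZ0 : 0 ≤ Z := by rw [hZ]; positivity
  -- the count of the bad words
  have h1 : ({w : List (Fin M) | K w ≤ N ∧ ¬ (fun v => v ∉ B) (K w)}.ncard : ℝ) ≤ C₁ * (N : ℝ) ^ θ * D := by
    have e0 : {w : List (Fin M) | K w ≤ N ∧ ¬ (fun v => v ∉ B) (K w)} = {w : List (Fin M) | K w ≤ N ∧ K w ∈ B} := by
      ext w
      simp
    rw [e0]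
    have e1 : ({w : List (Fin M) | K w ≤ N ∧ K w ∈ B}.ncard : ℝ) ≤
        (((Icc 1 N).filter (fun v => v ∈ B)).card : ℝ) * (2 * (M + 2) * ((T M ((M + 1) ^ 2 * N)).ncard : ℝ)) := by
      exact_mod_cast bad_le (M := M) B N
    have e2 : (((T M ((M + 1) ^ 2 * N)).ncard : ℕ) : ℝ) ≤ (M ^ 2 + M + 1) ^ k * D := by
      have e3 : (M + 1) ^ 2 * N ≤ 4 ^ k * (N / 2) := by
        have e4 : N ≤ 3 * (N / 2) := by omega
        calc (M + 1) ^ 2 * N ≤ (M + 1) ^ 2 * (3 * (N / 2)) := Nat.mul_le_mul_left _ e4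
          _ = (M + 1) ^ 2 * 3 * (N / 2) := by ring
          _ ≤ _ := Nat.mul_le_mul_right _ hk
      have e5 := (T_card_mono (M := M) e3).trans (double_iter hR1 k)
      rw [hD]
      exact_mod_cast e5
    have e3 : (((Icc 1 N).filter (fun v => v ∈ B)).card : ℝ) ≤ |C| * (N : ℝ) ^ θ :=
      (hC N (by omega)).trans (mul_le_mul_of_nonneg_right (le_abs_self C) (by positivity))
    calc _ ≤ _ := e1
      _ ≤ (|C| * (N : ℝ) ^ θ) * (2 * (M + 2) * ((M ^ 2 + M + 1) ^ k * D)) := by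
        apply mul_le_mul e3 _ (by positivity) (by positivity)
        exact mul_le_mul_of_nonneg_left e2 (by positivity)
      _ = _ := by rw [hC₁]; ring
  -- the product bound
  have h2 : D ^ 2 ≤ (2 * Nat.log 2 N + 2) * Z := by
    rw [hD, hZ]
    exact_mod_cast prod_le (M := M) N
  have h3 : c * ((N : ℝ) ^ (1 - δ) / 3 ^ (1 - δ)) ≤ D := by
    rw [hD]
    refine le_trans (mul_le_mul_of_nonneg_left ?_ hc.le) (hgr (N / 2) hR1)
    rw [← Real.div_rpow (by positivity) (by positivity)]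
    apply Real.rpow_le_rpow (by positivity) _ (by linarith)
    rw [div_le_iff₀ (by norm_num)]
    have e4 : N ≤ (N / 2) * 3 := by omega
    exact_mod_cast e4
  have hNδ : (0 : ℝ) < (N : ℝ) ^ (1 - δ) := by positivity
  have h3p : (0 : ℝ) < (3 : ℝ) ^ (1 - δ) := by positivity
  -- `D ≤ (3^(1-δ)/c) N^(δ-1) (2 log + 2) Z`
  have h4 : (N : ℝ) ^ (1 - δ) * D ≤ ((3 : ℝ) ^ (1 - δ) / c) * ((2 * Nat.log 2 N + 2) * Z) := by
    have e1 : (N : ℝ) ^ (1 - δ) ≤ ((3 : ℝ) ^ (1 - δ) / c) * D := by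
      have e2 : (N : ℝ) ^ (1 - δ) = ((3 : ℝ) ^ (1 - δ) / c) * (c * ((N : ℝ) ^ (1 - δ) / 3 ^ (1 - δ))) := by
        field_simp
      rw [e2]
      exact mul_le_mul_of_nonneg_left h3 (by positivity)
    calc (N : ℝ) ^ (1 - δ) * D ≤ (((3 : ℝ) ^ (1 - δ) / c) * D) * D := mul_le_mul_of_nonneg_right e1 (by linarith)
      _ = ((3 : ℝ) ^ (1 - δ) / c) * D ^ 2 := by ring
      _ ≤ _ := mul_le_mul_of_nonneg_left h2 (by positivity)
  have h5 : (N : ℝ) ^ θ * ((N : ℝ) ^ δ) = (N : ℝ) ^ (-η) * (N : ℝ) ^ (1 - δ) := by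
    rw [← Real.rpow_add hNp, ← Real.rpow_add hNp]
    congr 1
    rw [hδ]
    ring
  have h6 : (N : ℝ) ^ (1 - δ) * (C₁ * (N : ℝ) ^ θ * D) ≤ (N : ℝ) ^ (1 - δ) * ((N : ℝ) ^ (-η) * Z) := by
    calc (N : ℝ) ^ (1 - δ) * (C₁ * (N : ℝ) ^ θ * D) = (C₁ * (N : ℝ) ^ θ) * ((N : ℝ) ^ (1 - δ) * D) := by ring
      _ ≤ (C₁ * (N : ℝ) ^ θ) * (((3 : ℝ) ^ (1 - δ) / c) * ((2 * Nat.log 2 N + 2) * Z)) :=
          mul_le_mul_of_nonneg_left h4 (by positivity)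
      _ = (C₁ * ((3 : ℝ) ^ (1 - δ) / c) * (2 * (Nat.log 2 N : ℝ) + 2)) * ((N : ℝ) ^ θ * Z) := by ring
      _ ≤ (N : ℝ) ^ δ * ((N : ℝ) ^ θ * Z) := mul_le_mul_of_nonneg_right hlog (by positivity)
      _ = ((N : ℝ) ^ θ * (N : ℝ) ^ δ) * Z := by ring
      _ = (N : ℝ) ^ (1 - δ) * ((N : ℝ) ^ (-η) * Z) := by rw [h5]; ring
  have h7 := le_of_mul_le_mul_left h6 hNδ
  rw [← hZ]
  exact h1.trans h7

/-- **Windows.** If `S` has `O_ε (X ^ (s + ε))` elements of height at most `X`, then, for every bound `M ≥ M₀(d, s, κ, η)` on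
the partial quotients and every expanding `G` of growth `d`, for almost all words `w` (all those with `K w ≤ N` but a proportion
`N^(-η)`) no element of `S` has a height within `K(w)^κ` of `G (K w)`; here `d s + κ + η < 1`. -/
theorem keep_windows (d s κ η : ℝ) (hd : 1 ≤ d) (hs : 0 ≤ s) (hκ : 0 ≤ κ) (hη : 0 ≤ η) (h1 : d * s + κ + η < 1) :
    ∃ M₀ : ℕ, ∀ M : ℕ, M₀ ≤ M → ∀ {U : Type*} (S : Set U) (h : U → ℝ) (G : ℕ → ℝ), Expanding G d →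
    (∀ ε : ℝ, 0 < ε → ∃ C : ℝ, ∀ X : ℝ, 1 ≤ X →
      {t | t ∈ S ∧ h t ≤ X}.Finite ∧ ({t | t ∈ S ∧ h t ≤ X}.ncard : ℝ) ≤ C * X ^ (s + ε)) →
    AlmostAll M η (fun v => ∀ t ∈ S, ¬ |h t - G v| ≤ (v : ℝ) ^ κ) := by
  obtain ⟨ε, hε⟩ : ∃ ε, ε = (1 - d * s - κ - η) / (2 * d) := ⟨_, rfl⟩
  have hε0 : 0 < ε := by
    rw [hε]
    apply div_pos (by linarith) (by linarith)
  have hεd : d * ε = (1 - d * s - κ - η) / 2 := by
    rw [hε]
    field_simp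
  have hds : 0 ≤ d * s := by positivity
  obtain ⟨M₀, hM₀⟩ := avoid (d * (s + ε) + κ) η (by positivity) hη (by rw [mul_add, hεd]; linarith)
  refine ⟨M₀, fun M hM U S h G hG hS => ?_⟩
  obtain ⟨C, hC⟩ := nearG_count S h hG (s := s + ε) (κ := κ) (by linarith) hκ (by linarith) (hS ε hε0)
  refine (hM₀ M hM _ C hC).mono (fun v _ hv t ht h2 => hv ⟨t, ht, h2⟩)

/-- the case of a set of natural numbers -/
theorem keep_win_nat (d s κ η : ℝ) (hd : 1 ≤ d) (hs : 0 ≤ s) (hκ : 0 ≤ κ) (hη : 0 ≤ η) (h1 : d * s + κ + η < 1) :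
    ∃ M₀ : ℕ, ∀ M : ℕ, M₀ ≤ M → ∀ (P : Set ℕ) (G : ℕ → ℝ), Expanding G d →
    (∀ ε : ℝ, 0 < ε → ∃ C : ℝ, ∀ X : ℕ, 1 ≤ X →
      (((Ioc 0 X).filter (fun t => t ∈ P)).card : ℝ) ≤ C * (X : ℝ) ^ (s + ε)) →
    AlmostAll M η (fun v => ¬ ∃ n : ℕ, (n = 0 ∨ n ∈ P) ∧ |(n : ℝ) - G v| ≤ (v : ℝ) ^ κ) := by
  obtain ⟨M₀, hM₀⟩ := keep_windows d s κ η hd hs hκ hη h1
  refine ⟨M₀, fun M hM P G hG hP => ?_⟩
  have h2 := hM₀ M hM {t : ℕ | t = 0 ∨ t ∈ P} (fun t : ℕ => (t : ℝ)) G hG (by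
    intro ε hε
    obtain ⟨C, hC⟩ := hP ε hε
    refine ⟨|C| + 1, fun X hX => ?_⟩
    have hX1 : 1 ≤ ⌊X⌋₊ := Nat.le_floor (by exact_mod_cast hX)
    have hsub : {t : ℕ | t ∈ {t : ℕ | t = 0 ∨ t ∈ P} ∧ (t : ℝ) ≤ X} ⊆
        (((Ioc 0 ⌊X⌋₊).filter (fun t => t ∈ P) ∪ {0} : Finset ℕ) : Set ℕ) := by
      rintro t ⟨ht, htX⟩
      rw [mem_coe, mem_union, mem_filter, mem_Ioc, mem_singleton]
      rcases Nat.eq_zero_or_pos t with h0 | h0
      · right; exact h0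
      · left
        refine ⟨⟨h0, Nat.le_floor htX⟩, ?_⟩
        rcases ht with h | h
        · omega
        · exact h
    refine ⟨(finite_toSet _).subset hsub, ?_⟩
    have h2 := Set.ncard_le_ncard hsub (finite_toSet _)
    rw [Set.ncard_coe_finset] at h2
    have h3 : ((Ioc 0 ⌊X⌋₊).filter (fun t => t ∈ P) ∪ {0} : Finset ℕ).card ≤
        ((Ioc 0 ⌊X⌋₊).filter (fun t => t ∈ P)).card + 1 := (card_union_le _ _).trans (by simp)
    have h4 : (({t : ℕ | t ∈ {t : ℕ | t = 0 ∨ t ∈ P} ∧ (t : ℝ) ≤ X}.ncard : ℕ) : ℝ) ≤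
        (((Ioc 0 ⌊X⌋₊).filter (fun t => t ∈ P)).card : ℝ) + 1 := by exact_mod_cast h2.trans h3
    have h5 : (1 : ℝ) ≤ X ^ (s + ε) := Real.one_le_rpow hX (by linarith)
    have h6 : ((⌊X⌋₊ : ℕ) : ℝ) ^ (s + ε) ≤ X ^ (s + ε) :=
      Real.rpow_le_rpow (Nat.cast_nonneg _) (Nat.floor_le (by linarith)) (by linarith)
    calc _ ≤ (((Ioc 0 ⌊X⌋₊).filter (fun t => t ∈ P)).card : ℝ) + 1 := h4
      _ ≤ C * ((⌊X⌋₊ : ℕ) : ℝ) ^ (s + ε) + 1 := by linarith [hC _ hX1]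
      _ ≤ |C| * X ^ (s + ε) + 1 * X ^ (s + ε) := by
        have h7 : C * ((⌊X⌋₊ : ℕ) : ℝ) ^ (s + ε) ≤ |C| * X ^ (s + ε) :=
          (mul_le_mul_of_nonneg_right (le_abs_self _) (by positivity)).trans
            (mul_le_mul_of_nonneg_left h6 (abs_nonneg _))
        linarith
      _ = (|C| + 1) * X ^ (s + ε) := by ring)
  refine h2.mono fun v _ hv => ?_
  rintro ⟨n, hn, h3⟩
  exact hv n hn h3

/-- the same for a property: for almost all words every `t` with `Adm t` and a height near `G (K w)` is good -/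
theorem keep_good (d s κ η : ℝ) (hd : 1 ≤ d) (hs : 0 ≤ s) (hκ : 0 ≤ κ) (hη : 0 ≤ η) (h1 : d * s + κ + η < 1) :
    ∃ M₀ : ℕ, ∀ M : ℕ, M₀ ≤ M → ∀ {U : Type*} (Adm Good : U → Prop) (h : U → ℝ) (G : ℕ → ℝ), Expanding G d →
    (∀ ε : ℝ, 0 < ε → ∃ C : ℝ, ∀ X : ℝ, 1 ≤ X →
      {t | (Adm t ∧ ¬ Good t) ∧ h t ≤ X}.Finite ∧ ({t | (Adm t ∧ ¬ Good t) ∧ h t ≤ X}.ncard : ℝ) ≤ C * X ^ (s + ε)) →
    AlmostAll M η (fun v => ∀ t, Adm t → |h t - G v| ≤ (v : ℝ) ^ κ → Good t) := by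
  obtain ⟨M₀, hM₀⟩ := keep_windows d s κ η hd hs hκ hη h1
  refine ⟨M₀, fun M hM U Adm Good h G hG hS => ?_⟩
  refine (hM₀ M hM {t | Adm t ∧ ¬ Good t} h G hG hS).mono fun v _ hv t h2 h3 => ?_
  by_contra h4
  exact hv t ⟨h2, h4⟩ h3

/-- the same for natural numbers -/
theorem keep_good_nat (d s κ η : ℝ) (hd : 1 ≤ d) (hs : 0 ≤ s) (hκ : 0 ≤ κ) (hη : 0 ≤ η) (h1 : d * s + κ + η < 1) :
    ∃ M₀ : ℕ, ∀ M : ℕ, M₀ ≤ M → ∀ (Adm Good : ℕ → Prop) (G : ℕ → ℝ), Expanding G d →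
    (∀ ε : ℝ, 0 < ε → ∃ C : ℝ, ∀ X : ℕ, 1 ≤ X →
      ({t : ℕ | 1 ≤ t ∧ t ≤ X ∧ Adm t ∧ ¬ Good t}.ncard : ℝ) ≤ C * (X : ℝ) ^ (s + ε)) →
    AlmostAll M η (fun v => ∀ n : ℕ, 1 ≤ n → Adm n → |(n : ℝ) - G v| ≤ (v : ℝ) ^ κ → Good n) := by
  obtain ⟨M₀, hM₀⟩ := keep_win_nat d s κ η hd hs hκ hη h1
  refine ⟨M₀, fun M hM Adm Good G hG hP => ?_⟩
  have h2 := hM₀ M hM {t | Adm t ∧ ¬ Good t} G hG (fun ε hε => by
    obtain ⟨C, hC⟩ := hP ε hε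
    refine ⟨C, fun X hX => le_trans (le_of_eq ?_) (hC X hX)⟩
    congr 1
    rw [← Set.ncard_coe_finset]
    congr 1
    ext t
    simp only [coe_filter, mem_Ioc, Set.mem_ofPred_eq]
    constructor
    · rintro ⟨⟨a1, a2⟩, a3⟩
      exact ⟨a1, a2, a3⟩
    · rintro ⟨a1, a2, a3⟩
      exact ⟨⟨a1, a2⟩, a3⟩)
  refine h2.mono fun v _ hv n hn1 hn h3 => ?_
  by_contra h4
  exact hv ⟨n, Or.inr ⟨hn, h4⟩, h3⟩

/-- **The family is large**: for a large bound `M` at least `c N^(2-δ)` words have a continuant at most `N`; for comparison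
the number of all the reduced fractions with denominator at most `N` is at most `N^2`. -/
theorem many (δ : ℝ) (hδ : 0 < δ) : ∃ M₀ : ℕ, ∀ M : ℕ, M₀ ≤ M → ∃ c : ℝ, 0 < c ∧ ∀ N : ℕ, 1 ≤ N →
    c * (N : ℝ) ^ (2 - δ) ≤ ({w : List (Fin M) | K w ≤ N}.ncard : ℝ) := by
  obtain ⟨M₀, hM₀⟩ := growth (δ / 2) (by linarith)
  refine ⟨M₀, fun M hM => ?_⟩
  obtain ⟨c, hc, hgr⟩ := hM₀ M hM
  refine ⟨c, hc, fun N hN => ?_⟩
  have h1 := hgr (N ^ 2) (Nat.one_le_pow _ _ hN)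
  have e1 : ((N ^ 2 : ℕ) : ℝ) ^ (1 - δ / 2) = (N : ℝ) ^ (2 - δ) := by
    push_cast
    rw [← Real.rpow_natCast, ← Real.rpow_mul (Nat.cast_nonneg N)]
    congr 1
    push_cast
    ring
  rw [e1] at h1
  refine h1.trans (le_of_eq ?_)
  congr 2
  ext w
  show K w ^ 2 ≤ N ^ 2 ↔ K w ≤ N
  exact Nat.pow_le_pow_iff_left (by norm_num)

end Pool.Agent.N475.ZQ
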